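import Pool.Agent.Helper79.GT.St5

/-!
# Project GT, module BNX: sizes
-/

set_option autoImplicit false

namespace Pool.Agent.Helper15.GT

open Pool.Agent.Helper79.GT Pool.Agent.Helper19.SK Pool.Agent.Helper73.DC Pool.Agent.Helper79.GS Finset
open scoped Classical

private theorem pw_eq (N j : ℕ) (h : 2 ^ j ≤ N) : pw N 2 j = 2 ^ j := by
  unfold pw
  exact min_eq_left (by omega)

private theorem two_lt (a b : ℕ) (h : a < b) : 2 ^ a < 2 ^ b :=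
  Nat.pow_lt_pow_right (by norm_num) h

theorem hBNX : StBNX := by
  intro X hX w
  obtain ⟨Λ, hΛ⟩ : ∃ Λ, Λ = Lam X w := ⟨_, rfl⟩
  obtain ⟨K, hK⟩ : ∃ K, K = X.K w := ⟨_, rfl⟩
  obtain ⟨N, hN⟩ : ∃ N, N = NN X.e w := ⟨_, rfl⟩
  obtain ⟨L, hL⟩ : ∃ L, L = LX X w := ⟨_, rfl⟩
  have hLK : L = K + 1 := by rw [hL, hK]; rfl
  have hΛe : Λ = 32 * (L + 1) ^ 2 + X.R w + X.S w + 16 := by
    rw [hΛ, hLK, hK]; rfl
  have hNe : N = (w.length + 2) ^ ((w.length + 2) ^ X.e) := by rw [hN]; rfl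
  have hsz : (14 * Λ) ^ 3 ≤ (w.length + 2) ^ X.e := by rw [hΛ]; exact hX.hsz w
  have h14 : 14 * Λ ≤ (w.length + 2) ^ X.e :=
    le_trans (Nat.le_self_pow (by norm_num) _) hsz
  have hbig : 2 ^ (14 * Λ) ≤ N := by
    rw [hNe]
    calc 2 ^ (14 * Λ) ≤ 2 ^ ((w.length + 2) ^ X.e) := Nat.pow_le_pow_right (by norm_num) h14
      _ ≤ (w.length + 2) ^ ((w.length + 2) ^ X.e) := Nat.pow_le_pow_left (by omega) _
  have hsq : (L + 1) ^ 2 = L ^ 2 + 2 * L + 1 := by ring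
  have hpw : ∀ j ≤ 14 * Λ, pw N 2 j = 2 ^ j := fun j hj =>
    pw_eq N j (le_trans (Nat.pow_le_pow_right (by norm_num) hj) hbig)
  have eL2 : (7 * L + 7) * L = 7 * L ^ 2 + 7 * L := by ring
  have hPh : PhX X N w = 2 ^ Λ := by
    unfold PhX
    rw [← hΛ]
    exact hpw Λ (by omega)
  have hnm : nmX X N w = 2 ^ L := by
    unfold nmX
    rw [← hL]
    exact hpw L (by omega)
  have hNb : NbX X N w = 2 ^ K := by
    unfold NbX
    rw [← hK]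
    exact hpw K (by omega)
  have hXbe : Xb L = 2 ^ ((7 * L + 7) * L + 2 * (8 * L ^ 2 + 9 * L + 2)) := by
    have he : (7 * L + 7) * L + (8 * L ^ 2 + 9 * L + 2 + (8 * L ^ 2 + 9 * L + 2)) =
        (7 * L + 7) * L + 2 * (8 * L ^ 2 + 9 * L + 2) := by ring
    unfold Xb Qb
    rw [← pow_mul, ← pow_add, ← pow_add, he]
  rw [← hN, ← hΛ, ← hK, ← hL]
  refine ⟨hpw, hPh, ?_, hNb, ?_, hnm, ?_, ?_, ?_, ?_, ?_, ?_, ?_, ?_, ?_, ?_, ?_, ?_⟩
  · rw [hPh, ← pow_mul]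
    rw [mul_comm]
    exact hbig
  · rw [hLK, pow_succ, mul_comm]
  · unfold SdX
    rw [hnm]
  · unfold QbN Qb
    exact hpw _ (by omega)
  · unfold XbN
    rw [hXbe]
    exact hpw _ (by omega)
  · rw [hPh]
    have h1 : 2 ^ K + 2 ≤ 2 ^ (K + 2) := by
      have : 1 ≤ 2 ^ K := Nat.one_le_two_pow
      have e : 2 ^ (K + 2) = 4 * 2 ^ K := by rw [pow_add]; ring
      omega
    exact lt_of_le_of_lt h1 (two_lt _ _ (by omega))
  · rw [hPh]
    have h1 : 2 ^ L + 1 ≤ 2 ^ (L + 1) := by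
      have : 1 ≤ 2 ^ L := Nat.one_le_two_pow
      have e : 2 ^ (L + 1) = 2 * 2 ^ L := by rw [pow_add]; ring
      omega
    have h2 : 2 ^ L + 2 ≤ 2 ^ (L + 2) := by
      have : 1 ≤ 2 ^ L := Nat.one_le_two_pow
      have e : 2 ^ (L + 2) = 4 * 2 ^ L := by rw [pow_add]; ring
      omega
    calc (2 ^ L + 1) * (2 ^ L + 2) ≤ 2 ^ (L + 1) * 2 ^ (L + 2) := Nat.mul_le_mul h1 h2
      _ = 2 ^ ((L + 1) + (L + 2)) := by rw [← pow_add]
      _ < 2 ^ Λ := two_lt _ _ (by omega)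
  · rw [hPh, hXbe]
    exact two_lt _ _ (by omega)
  · rw [hPh]
    unfold Qb
    exact two_lt _ _ (by omega)
  · rw [hPh]
    exact lt_of_le_of_lt (by omega : X.R w ≤ Λ) Nat.lt_two_pow_self
  · rw [hPh]
    exact lt_of_le_of_lt (by omega : X.S w + 2 ≤ Λ) Nat.lt_two_pow_self
  · rw [hPh]
    exact lt_of_le_of_lt (by omega : L + 2 ≤ Λ) Nat.lt_two_pow_self
  · rw [hPh]
    exact le_of_lt (lt_of_le_of_lt (by omega : 16 ≤ Λ) Nat.lt_two_pow_self)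
  · omega

end Pool.Agent.Helper15.GT
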